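import Pool.Agent.Q137.UO.Codim

/-!
# The Abel–Jacobi map over `ℚ` in one codimension, and cubic hypersurfaces

For a smooth projective scheme `Y` over `ℚ` let `A^n(Y) = CH^n(Y) ⊗ ℚ`, and let `B^n(Y)` be its image in
the Deligne cohomology `H^{2n}_D(Y_ℂ, ℚ(n))`. Both are additive functors of the Chow motive of `Y`, and the
kernel of the surjection `A^n(Y) → B^n(Y)` is the kernel of `CH^n(Y)^0 → J^n(Y_ℂ)`, tensored with `ℚ`.

For a separated scheme `X` of finite type over `ℚ` let `W(X)` be the weight complex (Gillet, Soulé; a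
complex of Chow motives over `ℚ` with rational coefficients, for the cohomology with compact supports;
`W(X) = h(X)` for smooth projective `X`), and put `A^{n,i}(X) = H^i(A^n(W(X)))` and
`B^{n,i}(X) = H^i(B^n(W(X)))`. `BijAt C Prod.fst n X` says that the maps `A^{n,i}(X) → B^{n,i}(X)` are
isomorphisms for this `n` and all `i`. For smooth projective `Y` the groups for `i ≠ 0` are zero, and
`BijAt C Prod.fst n Y` says that the kernel of `CH^n(Y)^0 → J^n(Y_ℂ)` is a torsion group.

**Theorem.** (1) For every `n`, the kernel of `CH^n(X)^0 → J^n(X_ℂ)` is a torsion group for all smooth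
proper schemes `X` over `ℚ` if and only if the maps `A^{n+a-1,i}(X_H) → B^{n+a-1,i}(X_H)` are isomorphisms
for all `a`, all finite sets `H` of triples `(i, j, l)` with `1 ≤ i ≤ a` and all `i`, where `X_H` is the
affine cubic hypersurface `∑_{(i, j, l) ∈ H} x_i y_j z_l = 1` over `ℚ`. Question Q1 is the case of all
`n`; the first open case is `n = 2`, which is about the index `a + 1`.

(2) The maps `A^{m,i} → B^{m,i}` are isomorphisms for `m ≤ a` and the hypersurfaces
`T(x, y, z) = 1` of all rational trilinear forms `T` in `a` variables `x` (any of the three blocks), with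
any numbers of variables `y` and `z`.
-/

set_option autoImplicit false

open CategoryTheory CategoryTheory.Limits AlgebraicGeometry Pool.Agent.Y116.UV Pool.Agent.Z125.UN
  Pool.Agent.Q193.LT Pool.Agent.Q49.WU Pool.Agent.Q137.UO

universe w w'

namespace Pool.Agent.Results.MP_e28333_ag.CodimensionByCodimension

/-- The groups `CH^n(X)^0` and `J^n(X_ℂ)` and the Abel–Jacobi maps `CH^n(X)^0 → J^n(X_ℂ)` of the
problem, for schemes `X` over `ℚ`. -/
structure AbelJacobi where
  /-- the cycles homologous to zero -/
  CH0 : ℕ → Sch ℚ → ModuleCat.{w'} ℤ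
  /-- the intermediate Jacobians -/
  J : ℕ → Sch ℚ → ModuleCat.{w'} ℤ
  /-- the Abel–Jacobi maps -/
  φ : ∀ n X, CH0 n X ⟶ J n X

/-- The kernel of `CH^n(X)^0 → J^n(X_ℂ)` is a torsion group. -/
def KernelTorsion (D : AbelJacobi.{w'}) (n : ℕ) (X : Sch ℚ) : Prop :=
  ∀ z : D.CH0 n X, (D.φ n X).hom z = 0 → ∃ m : ℕ, 0 < m ∧ m • z = 0

/-- The kernels in codimension `n` are torsion groups for all smooth proper schemes over `ℚ`. -/
def SmoothProperCase (D : AbelJacobi.{w'}) (n : ℕ) : Prop :=
  ∀ X : Sch ℚ, Smooth X.hom → IsProper X.hom → KernelTorsion D n X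

/-- What is used about the Abel–Jacobi maps: the description of the kernel for smooth projective schemes
by the maps from cycles to Deligne cohomology, and the reduction of smooth proper schemes to smooth
projective ones (each smooth proper `X` has a smooth projective modification `X' → X`, and `CH^n(X)_ℚ` is
a direct summand of `CH^n(X')_ℚ`). -/
structure Describes (D : AbelJacobi.{w'}) (C : PairData.{w} ℚ (ℤ × ℤ) ℚ) : Prop where
  kernel : ∀ (n : ℕ) (Y : Sch ℚ), SmoothProj Y → (KernelTorsion D n Y ↔ BijAt C Prod.fst n Y)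
  proper : ∀ n : ℕ, SmoothProperCase D n ↔ ∀ Y : Sch ℚ, SmoothProj Y → KernelTorsion D n Y

/-- **The Abel–Jacobi map over `ℚ`, one codimension at a time.** See the explanations above. Known cases
that are used: the point, and the indices `N ≤ 1` (divisors). -/
theorem result {D : AbelJacobi.{w'}} {C : PairData.{w} ℚ (ℤ × ℤ) ℚ} (h : Describes D C)
    (weight : IsWeightPair C) (generated : GenAt C Prod.fst) (point : BijAll C (aff ℚ ℚ))
    (divisors : ∀ N : ℤ, N ≤ 1 → ∀ Y : Sch ℚ, SmoothProj Y → BijAt C Prod.fst N Y) :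
    (∀ n : ℕ, SmoothProperCase D n ↔
      ∀ (a b c : ℕ) (H : Finset (Fin a × Fin b × Fin c)),
        BijAt C Prod.fst (n + (a - 1)) (tripS ℚ H)) ∧
    ∀ (a b c : ℕ) (T : Fin a → Fin b → Fin c → ℚ) (m : ℤ), m ≤ a →
      BijAt C Prod.fst m (hypS T) := by
  refine ⟨fun n => (h.proper n).trans (Iff.trans ?_ (codim_graphs generated weight point frac_rat n)),
    fun a b c T m hm => low_forms generated weight point divisors T (by linarith)⟩
  exact ⟨fun g Y hY => (h.kernel n Y hY).mp (g Y hY), fun g Y hY => (h.kernel n Y hY).mpr (g Y hY)⟩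

end Pool.Agent.Results.MP_e28333_ag.CodimensionByCodimension
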