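import Pool.Agent.Q193.LT.Cyc

/-!
# Injectivity of the Abel–Jacobi map over `ℚ` and tripartite hypergraphs

For a smooth projective scheme `Y` over `ℚ` let `A^n(Y) = CH^n(Y) ⊗ ℚ`, and let `B^n(Y)` be the image of
`A^n(Y)` in the Deligne cohomology `H^{2n}_D(Y_ℂ, ℚ(n))`, an extension of the group of the rational Hodge
classes of codimension `n` by `J^n(Y_ℂ) ⊗ ℚ`. Both are additive functors of the Chow motive of `Y`, and the
kernel of the surjection `A^n(Y) → B^n(Y)` is the kernel of `CH^n(Y)^0 ⊗ ℚ → J^n(Y_ℂ) ⊗ ℚ`.

For a separated scheme `X` of finite type over `ℚ` let `W(X)` be the weight complex (Gillet, Soulé; a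
complex of Chow motives over `ℚ` with rational coefficients, for the cohomology with compact supports;
`W(X) = h(X)` for smooth projective `X`), and put `A^{n,i}(X) = H^i(A^n(W(X)))` and
`B^{n,i}(X) = H^i(B^n(W(X)))`. `BijAll C X` says that the maps `A^{n,i}(X) → B^{n,i}(X)` are isomorphisms
for all `n` and `i`. For smooth projective `Y` the groups for `i ≠ 0` are zero, and `BijAll C Y` says that
the kernel of `CH^n(Y)^0 → J^n(Y_ℂ)` is a torsion group for all `n`.

For a finite set `H` of triples `(i, j, l)` (a tripartite hypergraph) let `X_H` be the smooth affine cubic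
hypersurface `∑_{(i, j, l) ∈ H} x_i y_j z_l = 1` over `ℚ`.

**Theorem.** (1) The kernel of `CH^i(X)^0 → J^i(X_ℂ)` is a torsion group for all smooth proper schemes `X`
over `ℚ` and all `i ≥ 1` if and only if the maps `A^{n,i}(X_H) → B^{n,i}(X_H)` are isomorphisms for all
finite sets `H` of triples.

(2) For all `n`, the kernels are torsion groups for all smooth projective schemes of dimension at most `n`
over `ℚ` if and only if the maps are isomorphisms for the hypersurfaces `T(x, y, z) = 1` of all trilinear
forms `T` over `ℚ` such that one of the three blocks of variables has at most `n + 2` variables (the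
other two blocks are arbitrary).

(3) Unconditionally, the maps are isomorphisms if one of the blocks has at most three variables.
-/

set_option autoImplicit false

open CategoryTheory CategoryTheory.Limits AlgebraicGeometry Pool.Agent.Y116.UV Pool.Agent.Z125.UN
  Pool.Agent.Q193.LT

universe w w'

namespace Pool.Agent.Results.MP_e28333_ag.HypergraphCubics

/-- The groups `CH^i(X)^0` and `J^i(X_ℂ)` and the Abel–Jacobi maps `CH^i(X)^0 → J^i(X_ℂ)` of the
problem, for schemes `X` over `ℚ`. -/
structure AbelJacobi where
  /-- the cycles homologous to zero -/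
  CH0 : ℕ → Sch ℚ → ModuleCat.{w'} ℤ
  /-- the intermediate Jacobians -/
  J : ℕ → Sch ℚ → ModuleCat.{w'} ℤ
  /-- the Abel–Jacobi maps -/
  φ : ∀ i X, CH0 i X ⟶ J i X

/-- The kernel of `CH^i(X)^0 → J^i(X_ℂ)` is a torsion group for all `i ≥ 1`. -/
def KernelTorsion (D : AbelJacobi.{w'}) (X : Sch ℚ) : Prop :=
  ∀ i : ℕ, 1 ≤ i → ∀ z : D.CH0 i X, (D.φ i X).hom z = 0 → ∃ m : ℕ, 0 < m ∧ m • z = 0

/-- The kernels are torsion groups for all smooth proper schemes over `ℚ`: question Q1. -/
def SmoothProperCase (D : AbelJacobi.{w'}) : Prop :=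
  ∀ X : Sch ℚ, Smooth X.hom → IsProper X.hom → KernelTorsion D X

/-- What is used about the Abel–Jacobi maps: the description of the kernel for smooth projective schemes
by the maps from cycles to Deligne cohomology, and the reduction of smooth proper schemes to smooth
projective ones (by Chow's lemma and resolution of singularities each smooth proper `X` has a smooth
projective modification `X' → X`, and `CH^i(X)_ℚ` is a direct summand of `CH^i(X')_ℚ`). -/
structure Describes (D : AbelJacobi.{w'}) (C : PairData.{w} ℚ (ℤ × ℤ) ℚ) : Prop where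
  kernel : ∀ Y : Sch ℚ, SmoothProj Y → (KernelTorsion D Y ↔ BijAll C Y)
  proper : SmoothProperCase D ↔ ∀ Y : Sch ℚ, SmoothProj Y → KernelTorsion D Y

/-- The maps are isomorphisms for all hypersurfaces `T = 1` with a block of at most `m` variables. -/
def Forms (C : PairData.{w} ℚ (ℤ × ℤ) ℚ) (m : ℕ) : Prop :=
  ∀ (a b c : ℕ) (T : Fin a → Fin b → Fin c → ℚ), (a ≤ m ∨ b ≤ m ∨ c ≤ m) → BijAll C (hypS T)

/-- **The Abel–Jacobi map over `ℚ` and tripartite hypergraphs.** See the explanations above. The
hypothesis `generated` is the statement that smooth projective schemes generate, in each dimension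
(Gillet and Soulé, from Hironaka's theorem). Known cases that are used: the point, and curves. -/
theorem result {D : AbelJacobi.{w'}} {C : PairData.{w} ℚ (ℤ × ℤ) ℚ} (h : Describes D C)
    (weight : IsWeightPair C) (generated : WeightGen C) (point : BijAll C (aff ℚ ℚ))
    (curves : ∀ Y : Sch ℚ, SmoothProj Y → topologicalKrullDim Y.left ≤ (1 : ℕ) →
      KernelTorsion D Y) :
    (SmoothProperCase D ↔
      ∀ (a b c : ℕ) (H : Finset (Fin a × Fin b × Fin c)), BijAll C (tripS ℚ H)) ∧
    (∀ n : ℕ, (∀ Y : Sch ℚ, SmoothProj Y → topologicalKrullDim Y.left ≤ n →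
      KernelTorsion D Y) ↔ Forms C (n + 2)) ∧
    Forms C 3 := by
  have e : ∀ n : ℕ, (∀ Y : Sch ℚ, SmoothProj Y → topologicalKrullDim Y.left ≤ n →
      KernelTorsion D Y) ↔ Forms C (n + 2) := by
    intro n
    refine Iff.trans ?_ (wg_dim generated weight point n)
    exact ⟨fun g Y hY hn => (h.kernel Y hY).mp (g Y hY hn),
      fun g Y hY hn => (h.kernel Y hY).mpr (g Y hY hn)⟩
  refine ⟨?_, e, (e 1).mp curves⟩
  refine h.proper.trans (Iff.trans ?_ (wg_graph generated weight point frac_rat))
  exact ⟨fun g Y hY => (h.kernel Y hY).mp (g Y hY), fun g Y hY => (h.kernel Y hY).mpr (g Y hY)⟩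

end Pool.Agent.Results.MP_e28333_ag.HypergraphCubics
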