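import Pool.Agent.Q72.DP.Exact

/-!
# Injectivity of the Abel-Jacobi maps over `ℚ` and infinitely many codimensions

`𝒱` is the class of smooth projective varieties over `k = ℚ` (or any class of smooth proper varieties
over a field `k` closed under products), `C` the Chow groups with rational coefficients (in the form
of their formal properties, `IsChowProj`), `H` a Weil cohomology theory (`IsWeilProj`), `N X j` the
kernel of the Abel-Jacobi map in `CH^j(X)` (`IsAJKernel`: homologically trivial classes, stable under
correspondences), `B` the Grothendieck rings of vector bundles (`IsKTheory`) and `Rat` the class of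
rational varieties (`IsRationalClass`).

Theorem. The Abel-Jacobi maps of all varieties are injective in all codimensions (up to torsion) if
and only if for infinitely many `m` the following holds: for all rational varieties `V` of dimension
`2 m` and all divisors `G` on `V`, if `G^m` is in the kernel of the Abel-Jacobi map, then `G^m = 0` in
`CH^m(V)`.
-/

open CategoryTheory AlgebraicGeometry

set_option autoImplicit false

universe u v w

namespace Pool.Agent.Results.MP_e28333_ag.InfinitelyManyCodimensions

open Pool.Agent.H914 Pool.Agent.W492.BB Pool.Agent.TH133 Pool.Agent.Q72.DP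

/-- The injectivity of all Abel-Jacobi maps is tested, in infinitely many codimensions `m`, on the
powers `G^m` of divisors on rational varieties of dimension `2 m`. -/
theorem result {k : Type u} [Field k] {𝒱 : VarClass k} (C : TheoryData.{u, v, 0} 𝒱 ℚ)
    [IsChowProj C] {K : Type w} [Field K] (H : WeilTheoryData.{u, v, w} C K) [IsWeilProj H]
    (B : BundleData C) (hB : B.IsKTheory) (Rat : 𝒱.Obj → Prop) (hRat : IsRationalClass B Rat)
    (N : ∀ X : 𝒱.Obj, ℕ → Submodule ℚ (C.A X)) (hN : IsAJKernel H N) :
    (∀ X : 𝒱.Obj, AJInjective N X) ↔ ∀ n : ℕ, ∃ m : ℕ, n ≤ m ∧ MiddleAt N Rat m :=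
  inj_inf hB hRat (IsAJKernel.adequate hN) (one_notMem_aj hN)

end Pool.Agent.Results.MP_e28333_ag.InfinitelyManyCodimensions
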