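import Pool.Agent.Q72.DP.AJMain

/-!
# Injectivity of the Abel-Jacobi maps of one variety: vector bundles and tautological powers

`𝒱` is the class of smooth projective geometrically irreducible varieties over `ℚ` (or any class over
a field `k`, closed under products, which contains the projective bundles over its members), `C` the
Chow groups with rational coefficients (in the form of their formal properties, `IsChowProj`), `H` a
Weil cohomology theory (`IsWeilProj`), `N X j ⊆ CH^j(X)` the kernel of the Abel-Jacobi map
(`IsAJKernel`), and `B` the Grothendieck rings of vector bundles with their known properties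
(`IsKTheory`).

Theorem. For every single variety `X` the following are equivalent:
* the Abel-Jacobi maps of `X` are injective up to torsion in all codimensions;
* every vector bundle on `X` whose Chern classes are homologically and Abel-Jacobi trivial has
  torsion Chern classes;
* for every vector bundle `E` of rank `m` on `X`, with `ξ` the class of `O(1)` on its projective
  bundle `P`: if `ξ^m` is in the kernel of the Abel-Jacobi map of `P` then `ξ^m = 0` in `CH^m(P)`;
* the same for all powers of all divisors on all projective bundles over `X`.
-/

open CategoryTheory AlgebraicGeometry

set_option autoImplicit false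

universe u v w

namespace Pool.Agent.Results.MP_e28333_ag.VectorBundles

open Pool.Agent.H914 Pool.Agent.W492.BB Pool.Agent.TH133 Pool.Agent.Q72.DP

/-- The Abel-Jacobi maps of `X` are injective if and only if the vector bundles on `X` with
Abel-Jacobi trivial Chern classes have Chern classes zero, if and only if the same holds for the
powers of divisors on projective bundles over `X`. -/
theorem result {k : Type u} [Field k] {𝒱 : VarClass k} (C : TheoryData.{u, v, 0} 𝒱 ℚ)
    [IsChowProj C] {K : Type w} [Field K] (H : WeilTheoryData.{u, v, w} C K) [IsWeilProj H]
    (N : ∀ X : 𝒱.Obj, ℕ → Submodule ℚ (C.A X)) (hN : IsAJKernel H N)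
    (B : BundleData C) (hB : B.IsKTheory) (X : 𝒱.Obj) :
    [AJInjective N X, ChernInjective N B X, TautInjective N B X,
      ∀ (P : 𝒱.Obj) (f : P ⟶ X), B.IsBundle f → PowersInjective N P].TFAE :=
  inj_at hB hN.adequate X (one_notMem_aj hN X)

end Pool.Agent.Results.MP_e28333_ag.VectorBundles
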